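import Pool.Agent.Lib.Orch.Eq

/-!
The minimal denominators of the column generating functions of orchard networks.
-/

namespace Pool.Agent.Results.MP_0e5665_co.ExactDenominators

open Orch Polynomial

/-- the factors `X_j`, `2 ≤ j ≤ ℓ`, that are settled for `F_ℓ` -/
def Settled (j l : ℕ) : Prop :=
  j ≤ 6790275557 ∨
  (∃ p ∈ ({5, 7, 11, 13, 17, 19, 23, 29, 31, 37, 41, 43, 47} : Finset ℕ), 4 ≤ j % p) ∨
  (∃ p ∈ ({3, 5, 11, 17, 29, 37, 41, 43} : Finset ℕ), j % p = 2) ∨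
  (∃ p ∈ ({29, 43} : Finset ℕ), j % p = 3 ∧ l % p ≠ 5) ∨
  l ≤ j + 2

theorem result : ∀ l : ℕ, 1 ≤ l →
    (∃ N D : ℚ[X], IsCoprime N D ∧ D.coeff 0 = 1 ∧ F l * (D : PowerSeries ℚ) = N) ∧
    ∀ N D : ℚ[X], IsCoprime N D → D.coeff 0 = 1 → F l * (D : PowerSeries ℚ) = N →
      D ∣ ∏ j ∈ Finset.Icc 2 l, XP ℚ j ∧
      (∀ j : ℕ, 2 ≤ j → j ≤ l → ¬ (j = 3 ∧ l = 5) → Settled j l →
        XP ℚ j ∣ D ∧ ¬ XP ℚ j ^ 2 ∣ D) ∧
      (l ≠ 5 → l ≤ 6790275557 → D = ∏ j ∈ Finset.Icc 2 l, XP ℚ j) := by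
  intro l hl
  refine ⟨p_RedEx l hl, fun N D h1 h2 h3 => ?_⟩
  have hR : IsRed l N D := ⟨h1, h2, h3⟩
  have hD := p_RedDvd l hl N D hR
  have key : ∀ j : ℕ, 2 ≤ j → j ≤ l → ¬ xe (X : ℚ[X]) j ∣ te (X : ℚ[X]) l → XP ℚ j ∣ D := by
    intro j hj hjl hnd
    apply p_Fin D j _ (XP_irr j hj)
    apply p_RedNd l hl N D hR j hj hjl
    rw [p_XPxe]
    exact hnd
  refine ⟨hD, fun j hj hjl h35 hS => ⟨key j hj hjl ?_, sq_not_dvd l j hj hjl D hD⟩, fun h5 hN => ?_⟩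
  · rcases hS with h | h | h | h | h
    · exact nd_all j l hj hjl h35 h
    · exact nd_four j l hjl h
    · exact nd_two j l hjl h
    · exact nd_three j l hjl h
    · exact p_TopNd j l hj hjl h h35
  · apply eq_prod l D h2 hD
    intro j hj
    obtain ⟨hj2, hjl⟩ := Finset.mem_Icc.mp hj
    exact key j hj2 hjl (nd_all j l hj2 hjl (fun h => h5 h.2) (le_trans hjl hN))

end Pool.Agent.Results.MP_0e5665_co.ExactDenominators
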